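import Pool.Agent.Q80.EW.FinX

set_option autoImplicit false

/-!
The maximum of zeta on the critical line over windows of length `exp (y √(log log T))`.
-/

namespace Pool.Agent.Results.MP_abec59_nt.MaximumInWindows

open Filter Topology MeasureTheory

noncomputable section

/-- the maximum of `|zeta|` over the window `[t, t + U]` on the critical line -/
def windowMax (U t : ℝ) : ℝ :=
  ⨆ u : Set.Icc t (t + U), ‖riemannZeta ((1 / 2 : ℂ) + ((u : ℝ) : ℂ) * Complex.I)‖

theorem result (ε K : ℝ) (hε : 0 < ε) : ∀ᶠ T : ℝ in atTop, ∀ U : ℝ,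
    Real.exp (ε * Real.sqrt (Real.log (Real.log T))) ≤ U →
    U ≤ Real.exp (K * Real.sqrt (Real.log (Real.log T))) →
      (volume {t : ℝ | t ∈ Set.Icc T (2 * T) ∧
        ε * Real.sqrt (Real.log (Real.log T)) <
          |Real.log (windowMax U t) - Real.log (Real.log T) - Real.log U / 2|}).toReal ≤ ε * T :=
  _root_.Pool.Agent.Q80.EW.finM ε K hε

end

end Pool.Agent.Results.MP_abec59_nt.MaximumInWindows
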